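import Pool.Agent.helper25.UC.P1
import Pool.Agent.helper25.UC.B7
import Pool.Agent.helper25.UC.C1
import Pool.Agent.helper25.UC.C2
import Pool.Agent.helper25.UC.C3
import Pool.Agent.helper25.UC.C4

/-!
# M1 : main lower bound

`F` has `Inv`, `E_l < E' ≤ n0 + 1` (`l = last`, `n0 = card V`).  Claim: there are `δ, K, fM > 0`
with `f z ≥ fM` for all `z ∈ Reg δ δ` with `env^{E'}(z) ≥ K tot z`.

Put `E'' = (E_l + E')/2`, `κ = 2(E'' - E_l) > 0`.  Note `0 ≤ E_l < E'' < E'` and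
`E_0 ≤ 2 E_l < 2E'` (`half`).  Abbreviate `T' = env^{E'}`, `T = env^{E''}`; `C` denotes constants
depending only on the flag, `τ`, `E'`.

*Constants, in this order.*
1. `B = (3 + κ C5)/κ`, `C5 = 8/(E'-E_l)` (from `env_gap`: if `T' ≥ 0` then
   `T ≥ T' + (E'-E'') o2/4`, so `o2 ≤ C5 T` and `T ≥ T'`).
2. `Inv` gives `δo` (shrink it, `Reg` is monotone) below all `δ0`'s and so small that
   `C (1 + B) δo² ≤ 1/8` for the constant of `W_drift`.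
3. `A := max (1/δo²) (C (k+1)²)` (`C` from `xs_drift`); `δ1 > 0` so small that
   `2 A B δ1 ≤ 1/8`, `δ1 ≤ δo²`, and `κ/(2δ1) ≥ 4 B2` where `B2` is fixed in the exit function.
4. `Inv` with this `δ1` gives `δx, ε1` (shrink `δx ≤ δo`).
5. `K1` large depending on everything, in particular `K1 ≥ 4δ1/δx²`.

`R = {z ∈ Reg δx δo : K1 tot z ≤ T'(z), T(z) < δ1 a_l(z)²}`.
On `R`: `T ≥ T' ≥ K1 tot`, `o2 ≤ C5 T`, `tot ≤ T/K1`.

*Drifts on `R`.*  `off_drift` with `E''`: `gen o2 ≤ g := 2T + 2E'' o2 - (3/2)S + C tot`.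
* `U1 := a_0/T'`.  `A_drift` with `E'`: `gen U1 ≤ (E_0 - 2E' + C/K1) U1 ≤ 0`.
* `Y := (o2 - B T)/a_l²`.  `W_drift` with `E''`, `α = 1`, `β = B` (`d² ≥ 0` dropped):
  `a_l² gen Y ≤ 2T + 2E'' o2 - (3/2)S + C tot - 2B E'' T - 2E_l(o2 - B T) +
   C(1+B)(δo² S + tot) = 2T + κ o2 - κ B T - (3/2) S + C(1+B)δo² S + C(1+B) tot
   ≤ (2 + κ C5 - κ B) T - S + C(1+B) tot = -T - S + C(1+B) tot ≤ -(S + tot)`,
  since `T ≥ K1 tot` and `K1 ≥ C(1+B) + 1`.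
* `gen xs ≤ C xs (S+tot)/a_l² ≤ C(k+1)² δx (S + tot)/a_l²`.
* `H := K1 C6 U1 + A (Y + 2Bδ1) + xs/δx` (`tot ≤ C6 a_0`, `Facts1.tot_le`): `gen H ≤ 0` on `R`.
* `H ≥ 0` on `R`: `Y ≥ -B T/a_l² ≥ -Bδ1`.
*Exits* `z' = z^w ∉ R`, `z ∈ R`.  `reg_step`: `z' ∈ Reg (2δx) (2δo)`; `env_half` (for `E'` and
`E''`): `T'(z'), T(z') > 0`; `env_step`: `T(z') ≤ T(z) + C(√o2+1) ≤ δ1 a_l(z)² + C(δo a_l(z) + 1)
≤ 2δ1 a_l(z')²` (as `a_l ≥ 1/δx²` is huge, `reg_large`; make `δx` small in step 4).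
So `Y(z') ≥ -2Bδ1` and `H(z') ≥ 0`.
 - If `T'(z') < K1 tot(z')`: `H ≥ K1 C6 a_0/T' ≥ K1 tot/T' > 1` (`tot(z') ≤ C6 a_0(z')`; use
   `reg_facts1` for `Reg (2δx) (2δo)`).
 - else if a ratio fails for `δx`: `xs/δx > 1`.
 - else if `o2(z') > δo² a_j²` for some `j` (`a_j ≥ a_l`): `Y + 2Bδ1 ≥ o2/a_l² - B T/a_l² + 2Bδ1
   ≥ δo²`, `H ≥ A δo² ≥ 1`.
 - `tot(z') ≤ δx² a_j²` always holds when `T' (z')≥ K1 tot(z')`: `tot ≤ T'/K1 ≤ T/K1 ≤
   2δ1 a_l²/K1 ≤ δx² a_l²/2`  (`T' ≤ T` by `env_mono`).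
 - else `z' ∈ Reg δx δo`, `T'(z') ≥ K1 tot(z')`, so `T(z') ≥ δ1 a_l(z')²`, and
   `env^{E_l} ≥ env^{E''} = T` (`env_mono`), so `f z' ≥ ε1` by `Inv`, and `H(z') ≥ 0 ≥ -1`.
*Exit function* `U := a_l²/T + B2 o2/T`, `T = env^{E''}`.  `L_drift` (with `E''`):
`gen(a_l²/T) ≤ (-κ + C/K1) a_l²/T + C S/T`; `V_drift`: `gen(o2/T) ≤ g/T - 2E'' o2/T + (C/K1) o2/T
≤ 2 - (3/2) S/T + C/K1 + (C/K1) C5 ≤ 3 - (3/2) S/T`.  With `B2 := C` (the constant of `L_drift`):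
`gen U ≤ -(κ - C/K1) a_l²/T + 3 B2 ≤ -(3κ/4) a_l²/T + 3B2`; since `a_l²/T ≥ 1/δ1` and
`κ/(2δ1) ≥ 4B2`, `3B2 ≤ (3κ/8)(1/δ1) ≤ (3κ/8) a_l²/T`, so `gen U ≤ -(3κ/8) a_l²/T`; and `B2 o2/T ≤ B2 C5 ≤ B2 C5 δ1 a_l²/T`, so `U ≤ (1 + B2 C5 δ1) a_l²/T`:
`gen U ≤ -c U`.  `U ≥ 1/δ1`.  `U ≥ 0` at exits.
*Conclusion*: `min_principle` with `f₀ = ε1`: `f ≥ (ε1/2)(1-H)` on `R`.
Let `z ∈ Reg δ δ` with `T'(z) ≥ K tot z`: `T ≤ 16(n0+1) o2 ≤ 16(n0+1)δ² a_l² < δ1 a_l²`, so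
`z ∈ R`; `K1C6 U1 ≤ K1 C6 tot/(K tot) = K1C6/K ≤ 1/8`; `A(Y+2Bδ1) ≤ A δ² + 1/8 ≤ 1/4`;
`xs/δx ≤ (k+1)² δ/δx ≤ 1/8`.  So `H ≤ 1/2`, `f z ≥ ε1/4 =: fM`.
-/

namespace UC
open Finset
variable {V : Type} [Fintype V] [DecidableEq V] {s k : ℕ}
variable {G : SimpleGraph V} [DecidableRel G.Adj]

theorem m1_a {x p : ℝ} (hx : 0 < x) (h0 : x ≤ 1) (hp : 0 < p) (h : x * (2 * p) ≤ 1) :
    p * x ^ 2 ≤ 1 / 2 := by
  nlinarith [mul_le_mul_of_nonneg_left h0 (mul_nonneg hp.le hx.le)]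

theorem m1_b {x p : ℝ} (hx : 0 < x) (h0 : x ≤ 1) (hp : 0 < p) (h : x * p ≤ 1) :
    x ^ 2 * p ≤ 1 := by
  nlinarith [mul_pos hx hp, mul_le_mul_of_nonneg_left h0 (mul_nonneg hp.le hx.le)]

theorem m1_c {T T' κ o : ℝ} (h : T' + κ / 2 * o / 4 ≤ T) (h3 : 0 ≤ T') : κ * o ≤ 8 * T := by
  linarith

theorem m1_d {x : ℝ} (hx : 0 < x) (h0 : x ≤ 1) : x ^ 2 ≤ x := by
  nlinarith

theorem m1_e {x n d : ℝ} (hd : 0 < d) (h2 : x * (32 * (n + 1)) ≤ d)
    (h5 : 16 * (n + 1) * x ^ 2 ≤ 16 * (n + 1) * x) : 16 * (n + 1) * x ^ 2 < d := by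
  linarith

theorem m1_f {K C a t T : ℝ} (h2 : K * C * a ≤ K * C * t) (hK : (8 * K * C + K) * t ≤ T)
    (h3 : 0 ≤ K * t) : K * C * a ≤ 1 / 8 * T := by
  linarith

theorem m1_g {ε H f : ℝ} (hε : 0 < ε) (h : ε / 2 * (1 - H) ≤ f) (hH : H ≤ 1 / 2) : ε / 4 ≤ f := by
  nlinarith

/-- a positive lower bound for finitely many positive numbers -/
theorem m1_min (L : List ℝ) (h : ∀ y ∈ L, 0 < y) : ∃ x : ℝ, 0 < x ∧ ∀ y ∈ L, x ≤ y := by
  induction L with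
  | nil => exact ⟨1, one_pos, fun y hy => absurd hy List.not_mem_nil⟩
  | cons a L ih =>
    obtain ⟨x, hx, hxy⟩ := ih (fun y hy => h y (List.mem_cons_of_mem _ hy))
    refine ⟨min a x, lt_min (h a List.mem_cons_self) hx, fun y hy => ?_⟩
    rcases List.mem_cons.mp hy with h1 | h1
    · rw [h1]
      exact min_le_left _ _
    · exact (min_le_right _ _).trans (hxy y h1)

/-- arithmetic for the drift of `Y` -/
theorem m1_Y {T o S t κ B El E2 C3 C4 δo D : ℝ} (hB : B * κ = 11)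
    (hE2 : 2 * (E2 - El) = κ) (ho : κ * o ≤ 8 * T) (hS : 0 ≤ S)
    (hK : (C3 + C4 * (1 + B) + 1) * t ≤ T) (hδ : C4 * (1 + B) * δo ^ 2 ≤ 1 / 2)
    (hD : 0 ≤ B * D) :
    1 * (2 * T + 2 * E2 * o - 3 / 2 * S + C3 * t) - B * (2 * E2 * T + D) -
      2 * El * (1 * o - B * T) + C4 * (1 + B) * (δo ^ 2 * S + t) ≤ -(S + t) := by
  have h1 : C4 * (1 + B) * δo ^ 2 * S ≤ 1 / 2 * S := mul_le_mul_of_nonneg_right hδ hS
  have h2 : E2 = El + κ / 2 := by linarith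
  subst h2
  have e : 1 * (2 * T + 2 * (El + κ / 2) * o - 3 / 2 * S + C3 * t) - B * (2 * (El + κ / 2) * T + D) -
      2 * El * (1 * o - B * T) + C4 * (1 + B) * (δo ^ 2 * S + t) =
      2 * T + κ * o - (B * κ) * T - 3 / 2 * S + (C3 + C4 * (1 + B)) * t +
        C4 * (1 + B) * δo ^ 2 * S - B * D := by ring
  rw [e, hB]
  linarith

/-- arithmetic for the drift of `U` -/
theorem m1_U {L T o S t κ E2 El C3 C7 C8 K D gL gO δ1 : ℝ} (hκ : 0 < κ) (hT : 0 < T) (hL : 0 ≤ L)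
    (hE2 : 2 * (E2 - El) = κ) (hC7 : 0 < C7) (hS : 0 ≤ S) (hδ1 : 0 < δ1)
    (hC3 : 0 < C3) (hC8 : 0 < C8) (hK : 0 < K)
    (h1 : gL ≤ (2 * El - 2 * E2 + C7 / K) * (L / T) + C7 * (S / T))
    (h2 : gO ≤ (2 * T + 2 * E2 * o - 3 / 2 * S + C3 * t) / T - 2 * E2 * (o / T) - D + C8 / K * (o / T))
    (hD : 0 ≤ D) (ho : κ * o ≤ 8 * T) (hKt : K * t ≤ T)
    (hK1 : C3 + C8 * (8 / κ) ≤ K) (hK2 : 4 * C7 / κ ≤ K) (hTL : T < δ1 * L)
    (hδ : 8 * C7 * δ1 ≤ κ) :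
    gL + C7 * gO ≤ -((3 * κ / 8) / (1 + 8 * C7 * δ1 / κ) * (L / T + C7 * (o / T))) := by
  have hST : 0 ≤ S / T := div_nonneg hS hT.le
  have hLT : 0 ≤ L / T := div_nonneg hL hT.le
  have e1 : (2 * T + 2 * E2 * o - 3 / 2 * S + C3 * t) / T - 2 * E2 * (o / T) - D + C8 / K * (o / T) =
      2 - 3 / 2 * (S / T) + C3 * (t / T) + C8 / K * (o / T) - D := by
    field_simp
    ring
  rw [e1] at h2
  have h3 : t / T ≤ 1 / K := by
    rw [div_le_div_iff₀ hT hK]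
    linarith
  have h4 : o / T ≤ 8 / κ := by
    rw [div_le_div_iff₀ hT hκ]
    linarith
  have h5 : C3 * (t / T) + C8 / K * (o / T) ≤ 1 := by
    have a1 : C3 * (t / T) ≤ C3 * (1 / K) := mul_le_mul_of_nonneg_left h3 hC3.le
    have a2 : C8 / K * (o / T) ≤ C8 / K * (8 / κ) := mul_le_mul_of_nonneg_left h4 (by positivity)
    have a3 : C3 * (1 / K) + C8 / K * (8 / κ) = (C3 + C8 * (8 / κ)) / K := by
      field_simp
    have a4 : (C3 + C8 * (8 / κ)) / K ≤ 1 := by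
      rw [div_le_one hK]
      exact hK1
    linarith
  have h6 : gO ≤ 3 - 3 / 2 * (S / T) := by linarith
  have h7 : C7 / K ≤ κ / 4 := by
    rw [div_le_div_iff₀ hK (by norm_num)]
    rw [div_le_iff₀ hκ] at hK2
    linarith
  have h8 : gL ≤ -(3 * κ / 4) * (L / T) + C7 * (S / T) := by
    have a1 : (2 * El - 2 * E2 + C7 / K) * (L / T) ≤ -(3 * κ / 4) * (L / T) := by
      apply mul_le_mul_of_nonneg_right _ hLT
      linarith
    linarith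
  have h9 : C7 * gO ≤ C7 * (3 - 3 / 2 * (S / T)) := mul_le_mul_of_nonneg_left h6 hC7.le
  have h9' : 0 ≤ C7 * (S / T) := mul_nonneg hC7.le hST
  have h10 : 1 / δ1 ≤ L / T := by
    rw [div_le_div_iff₀ hδ1 hT]
    linarith
  have h11 : 3 * C7 ≤ 3 * κ / 8 * (L / T) := by
    have a1 : 3 * C7 ≤ 3 * κ / 8 * (1 / δ1) := by
      rw [mul_one_div, le_div_iff₀ hδ1]
      linarith
    exact a1.trans (mul_le_mul_of_nonneg_left h10 (by positivity))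
  have h12 : gL + C7 * gO ≤ -(3 * κ / 8 * (L / T)) := by linarith
  refine h12.trans ?_
  apply neg_le_neg
  have h13 : L / T + C7 * (o / T) ≤ (1 + 8 * C7 * δ1 / κ) * (L / T) := by
    have a1 : C7 * (o / T) ≤ C7 * (8 / κ) := mul_le_mul_of_nonneg_left h4 hC7.le
    have a2 : C7 * (8 / κ) ≤ 8 * C7 * δ1 / κ * (L / T) := by
      have a3 : C7 * (8 / κ) = 8 * C7 * δ1 / κ * (1 / δ1) := by
        field_simp
      rw [a3]
      exact mul_le_mul_of_nonneg_left h10 (by positivity)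
    linarith
  have h14 : 0 < 1 + 8 * C7 * δ1 / κ := by positivity
  calc (3 * κ / 8) / (1 + 8 * C7 * δ1 / κ) * (L / T + C7 * (o / T))
      ≤ (3 * κ / 8) / (1 + 8 * C7 * δ1 / κ) * ((1 + 8 * C7 * δ1 / κ) * (L / T)) :=
        mul_le_mul_of_nonneg_left h13 (by positivity)
    _ = 3 * κ / 8 * (L / T) := by
        field_simp

/-- arithmetic for the envelope after an exit: `T' ≤ 2 δ1 a'²` -/
theorem m1_T {T T' a a' o C10 C11 δ1 δo δx : ℝ} (hδ1 : 0 < δ1) (hδx : 0 < δx)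
    (hC10 : 0 < C10) (hC11 : 0 < C11) (hδo : δo ≤ 1) (hδo0 : 0 < δo)
    (ha : 1 / δx ^ 2 ≤ a) (haa : |a' - a| ≤ C10) (hT : T < δ1 * a ^ 2)
    (ho : o ≤ δo ^ 2 * a ^ 2) (hTT : |T' - T| ≤ C11 * (Real.sqrt o + 1))
    (h1 : δx ^ 2 * (8 * C10 + 4 * C11 / δ1 + 1) ≤ 1) : T' ≤ 2 * δ1 * a' ^ 2 := by
  have hδx2 : 0 < δx ^ 2 := by positivity
  have hbig : 8 * C10 + 4 * C11 / δ1 + 1 ≤ a := by
    refine le_trans ?_ ha
    rw [le_div_iff₀ hδx2, mul_comm]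
    exact h1
  have hq : 0 < C11 / δ1 := by positivity
  have hq' : 0 < 4 * C11 / δ1 := by positivity
  have ha0 : 0 < a := by linarith
  have ha1 : 1 ≤ a := by linarith
  have hs : Real.sqrt o ≤ a := by
    have h2 : Real.sqrt o ≤ δo * a := by
      rw [Real.sqrt_le_left (by positivity)]
      calc o ≤ δo ^ 2 * a ^ 2 := ho
        _ = (δo * a) ^ 2 := by ring
    nlinarith
  have h2 : T' ≤ δ1 * a ^ 2 + C11 * (2 * a) := by
    have := (abs_le.mp hTT).2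
    have h3 : C11 * (Real.sqrt o + 1) ≤ C11 * (2 * a) :=
      mul_le_mul_of_nonneg_left (by linarith) hC11.le
    linarith
  have h4 : C11 * (2 * a) ≤ δ1 / 2 * a ^ 2 := by
    have h5 : 4 * C11 / δ1 ≤ a := by linarith
    rw [div_le_iff₀ hδ1] at h5
    nlinarith
  have h6 : 7 / 8 * a ≤ a' := by
    have := (abs_le.mp haa).1
    linarith
  have h7 : (7 / 8 * a) ^ 2 ≤ a' ^ 2 := by
    apply pow_le_pow_left₀ (by positivity) h6
  nlinarith [mul_le_mul_of_nonneg_left h7 hδ1.le, mul_pos hδ1 (pow_pos ha0 2)]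

theorem main_lower {f : St V s → ℝ} (hf : BadF G f) (F : Flag G s (k + 1)) (τ : ℝ)
    (hτ : 0 < τ) (hτ0 : τ ≤ tau0 V) (hI : Inv F τ f) (E' : ℝ) (hE : F.E (Fin.last k) < E')
    (hE' : E' ≤ cV V + 1) :
    ∃ δ > 0, ∃ K > 0, ∃ fM > 0, ∀ z, F.Reg δ δ z → K * tot z ≤ F.env E' τ z → fM ≤ f z := by
  classical
  have hn0 : 0 ≤ cV V := Nat.cast_nonneg _
  have hEl : 0 ≤ F.E (Fin.last k) := F.nonneg _
  set El : ℝ := F.E (Fin.last k) with hEldef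
  set E2 : ℝ := (El + E') / 2 with hE2def
  set κ : ℝ := E' - El with hκdef
  have hκ : 0 < κ := by linarith
  have hE2κ : 2 * (E2 - El) = κ := by rw [hE2def, hκdef]; ring
  have hE2E' : E2 ≤ E' := by rw [hE2def]; linarith
  have hElE2 : El ≤ E2 := by rw [hE2def]; linarith
  have hE'abs : |E'| ≤ cV V + 2 := by rw [abs_le]; constructor <;> linarith
  have hE2abs : |E2| ≤ cV V + 2 := by rw [abs_le]; constructor <;> linarith
  have hElabs : |El| ≤ cV V + 2 := by rw [abs_le]; constructor <;> linarith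
  have hE0 : F.E 0 ≤ 2 * El := by
    have := F.half 0 (Fin.last k)
    linarith
  -- constants of the imported theorems
  obtain ⟨d1, hd1, c1, hc1, Cf, hCf, hfacts⟩ := F.reg_facts1
  obtain ⟨d2, hd2, hbounds⟩ := F.env_bounds τ hτ hτ0
  obtain ⟨d3, hd3, C3, hC3, hoff⟩ := F.off_drift τ hτ hτ0
  obtain ⟨d4, hd4, C4, hC4, hW⟩ := F.W_drift τ hτ hτ0
  obtain ⟨d5, hd5, C5, hC5, hxs⟩ := F.xs_drift
  obtain ⟨d6, hd6, K6, hK6, C6, hC6, hA⟩ := F.A_drift τ hτ hτ0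
  obtain ⟨d7, hd7, K7, hK7, C7, hC7, hL⟩ := F.L_drift τ hτ hτ0
  obtain ⟨d8, hd8, K8, hK8, C8, hC8, hV⟩ := F.V_drift τ hτ hτ0
  obtain ⟨d9, hd9, K9, hK9, hhalf⟩ := F.env_half τ hτ hτ0
  obtain ⟨d10, hd10, C10, hC10, hstep⟩ := F.reg_step
  obtain ⟨d11, hd11, C11, hC11, hestep⟩ := F.env_step τ hτ hτ0
  obtain ⟨d12, hd12, hlarge⟩ := F.reg_large
  obtain ⟨dI, hdI, hInv⟩ := hI
  -- first constants
  set B : ℝ := 11 / κ with hBdef
  have hB : 0 < B := by positivity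
  have hBκ : B * κ = 11 := by rw [hBdef]; field_simp
  obtain ⟨δo, hδo, hδo1, hδoI, hδod, hδoC⟩ : ∃ δo : ℝ, 0 < δo ∧ δo ≤ 1 ∧ δo ≤ dI ∧
      (2 * δo ≤ d1 ∧ 2 * δo ≤ d2 ∧ δo ≤ d3 ∧ δo ≤ d4 ∧ δo ≤ d5 ∧ δo ≤ d6 ∧ δo ≤ d7 ∧ δo ≤ d8 ∧
        δo ≤ d9 ∧ δo ≤ d10 ∧ δo ≤ d11 ∧ δo ≤ d12) ∧ C4 * (1 + B) * δo ^ 2 ≤ 1 / 2 := by
    have hm : ∃ x : ℝ, 0 < x ∧ ∀ y ∈ ([1, dI, d1 / 2, d2 / 2, d3, d4, d5, d6, d7, d8, d9, d10, d11, d12,
        1 / (2 * (C4 * (1 + B)))] : List ℝ), x ≤ y := by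
      have hall : ∀ y ∈ ([1, dI, d1 / 2, d2 / 2, d3, d4, d5, d6, d7, d8, d9, d10, d11, d12,
        1 / (2 * (C4 * (1 + B)))] : List ℝ), 0 < y := by
        intro y hy
        simp only [List.mem_cons, List.not_mem_nil, or_false] at hy
        rcases hy with h | h | h | h | h | h | h | h | h | h | h | h | h | h | h <;> rw [h] <;> positivity
      exact m1_min _ hall
    obtain ⟨x, hx, hxy⟩ := hm
    simp only [List.mem_cons, List.not_mem_nil, or_false, forall_eq_or_imp, forall_eq] at hxy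
    obtain ⟨h0, hI', h1, h2, h3, h4, h5, h6, h7, h8, h9, h10, h11, h12, h13⟩ := hxy
    refine ⟨x, hx, h0, hI', ⟨by linarith, by linarith, h3, h4, h5, h6, h7, h8, h9, h10, h11, h12⟩, ?_⟩
    have hp : 0 < C4 * (1 + B) := by positivity
    rw [le_div_iff₀ (by positivity)] at h13
    exact m1_a hx h0 hp h13
  obtain ⟨ho1, ho2', ho3, ho4, ho5, ho6, ho7, ho8, ho9, ho10, ho11, ho12⟩ := hδod
  set A : ℝ := max (1 / δo ^ 2) (C5 * ((k + 1 : ℕ) : ℝ) ^ 2) with hAdef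
  have hA1 : 1 / δo ^ 2 ≤ A := le_max_left _ _
  have hA2 : C5 * ((k + 1 : ℕ) : ℝ) ^ 2 ≤ A := le_max_right _ _
  have hApos : 0 < A := lt_of_lt_of_le (by positivity) hA1
  have hAδo : 1 ≤ A * δo ^ 2 := by
    rw [div_le_iff₀ (by positivity)] at hA1
    exact hA1
  obtain ⟨δ1, hδ1, hδ1a, hδ1b⟩ : ∃ δ1 : ℝ, 0 < δ1 ∧ 2 * A * B * δ1 ≤ 1 / 8 ∧ 8 * C7 * δ1 ≤ κ := by
    refine ⟨min (1 / (16 * A * B)) (κ / (8 * C7)), lt_min (by positivity) (by positivity), ?_, ?_⟩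
    · have h1 := min_le_left (1 / (16 * A * B)) (κ / (8 * C7))
      calc 2 * A * B * min (1 / (16 * A * B)) (κ / (8 * C7)) ≤ 2 * A * B * (1 / (16 * A * B)) :=
            mul_le_mul_of_nonneg_left h1 (by positivity)
        _ = 1 / 8 := by field_simp; norm_num
    · have h1 := min_le_right (1 / (16 * A * B)) (κ / (8 * C7))
      calc 8 * C7 * min (1 / (16 * A * B)) (κ / (8 * C7)) ≤ 8 * C7 * (κ / (8 * C7)) :=
            mul_le_mul_of_nonneg_left h1 (by positivity)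
        _ = κ := by field_simp
  obtain ⟨dX, hdX, ε1, hε1, hInv1⟩ := hInv δ1 hδ1
  obtain ⟨δx, hδx, hδxI, hδxo, hδxC⟩ : ∃ δx : ℝ, 0 < δx ∧ δx ≤ dX ∧ δx ≤ δo ∧
      δx ^ 2 * (8 * C10 + 4 * C11 / δ1 + 1) ≤ 1 := by
    have hp : 0 < 8 * C10 + 4 * C11 / δ1 + 1 := by positivity
    refine ⟨min (min dX δo) (1 / (8 * C10 + 4 * C11 / δ1 + 1)), ?_, ?_, ?_, ?_⟩
    · exact lt_min (lt_min hdX hδo) (by positivity)
    · exact (min_le_left _ _).trans (min_le_left _ _)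
    · exact (min_le_left _ _).trans (min_le_right _ _)
    · set x := min (min dX δo) (1 / (8 * C10 + 4 * C11 / δ1 + 1)) with hx
      have hx0 : 0 < x := lt_min (lt_min hdX hδo) (by positivity)
      have hx1 : x ≤ 1 := (min_le_left _ _).trans ((min_le_right _ _).trans hδo1)
      have hx2 : x ≤ 1 / (8 * C10 + 4 * C11 / δ1 + 1) := min_le_right _ _
      rw [le_div_iff₀ hp] at hx2
      exact m1_b hx0 hx1 hp hx2
  have hδx1 : δx ≤ 1 := hδxo.trans hδo1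
  -- the constant `K1`
  obtain ⟨K1, hK1, hK1a⟩ : ∃ K1 : ℝ, 0 < K1 ∧ (K6 ≤ K1 ∧ K7 ≤ K1 ∧ K8 ≤ K1 ∧ K9 ≤ K1 ∧
      C3 + C4 * (1 + B) + 1 ≤ K1 ∧ C6 / (2 * κ) ≤ K1 ∧ 2 * δ1 / δx ^ 2 ≤ K1 ∧
      C3 + C8 * (8 / κ) ≤ K1 ∧ 4 * C7 / κ ≤ K1) := by
    have p1 : 0 < C3 + C4 * (1 + B) + 1 := by positivity
    have p2 : 0 < C6 / (2 * κ) := by positivity
    have p3 : 0 < 2 * δ1 / δx ^ 2 := by positivity
    have p4 : 0 < C3 + C8 * (8 / κ) := by positivity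
    have p5 : 0 < 4 * C7 / κ := by positivity
    refine ⟨K6 + K7 + K8 + K9 + (C3 + C4 * (1 + B) + 1) + C6 / (2 * κ) + 2 * δ1 / δx ^ 2 +
      (C3 + C8 * (8 / κ)) + 4 * C7 / κ, by positivity, ?_⟩
    refine ⟨?_, ?_, ?_, ?_, ?_, ?_, ?_, ?_, ?_⟩ <;> linarith
  obtain ⟨k6, k7, k8, k9, kC, kC6, kδ, kU1, kU2⟩ := hK1a
  -- the functions
  set l : Fin (k + 1) := Fin.last k with hl
  set U1 : St V s → ℝ := fun y => F.a 0 (nR y) / F.env E' τ y with hU1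
  set Yf : St V s → ℝ := fun y => (1 * F.o2 (nR y) - B * F.env E2 τ y) / F.a l (nR y) ^ 2 with hYf
  set Hf : St V s → ℝ := fun y => (K1 * Cf * U1 y + A * (Yf y + 2 * B * δ1)) + 1 / δx * F.xs y with hHf
  set Uf : St V s → ℝ := fun y => F.a l (nR y) ^ 2 / F.env E2 τ y + C7 * (F.o2 (nR y) / F.env E2 τ y) with hUf
  set R : Set (St V s) := {z | F.Reg δx δo z ∧ K1 * tot z ≤ F.env E' τ z ∧
    F.env E2 τ z < δ1 * F.a l (nR z) ^ 2} with hR
  -- basic facts on `R`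
  have hmono : ∀ z, F.env E' τ z ≤ F.env E2 τ z := fun z =>
    F.env_mono E2 E' τ hE2abs hE'abs hE2E' hτ hτ0 z
  have hmono2 : ∀ z, F.env E2 τ z ≤ F.env El τ z := fun z =>
    F.env_mono El E2 τ hElabs hE2abs hElE2 hτ hτ0 z
  have htot : ∀ z ∈ R, 1 ≤ tot z := fun z hz => hz.1.1
  have hT'pos : ∀ z ∈ R, 0 < F.env E' τ z := fun z hz =>
    lt_of_lt_of_le (mul_pos hK1 (lt_of_lt_of_le one_pos (htot z hz))) hz.2.1
  have hTpos : ∀ z ∈ R, 0 < F.env E2 τ z := fun z hz => lt_of_lt_of_le (hT'pos z hz) (hmono z)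
  have ho2nn : ∀ z : St V s, 0 ≤ F.o2 (nR z) := fun z => F.o2_nonneg _
  have hKt : ∀ z ∈ R, K1 * tot z ≤ F.env E2 τ z := fun z hz => hz.2.1.trans (hmono z)
  have hapos : ∀ z ∈ R, ∀ j, 0 < F.a j (nR z) := fun z hz => hz.1.2.2.1
  have ho2 : ∀ z ∈ R, κ * F.o2 (nR z) ≤ 8 * F.env E2 τ z := by
    intro z hz
    have h := (hbounds δx δo hδx.le (by linarith) hδo.le (by linarith) z hz.1).2.2 E' E2 hE'abs hE2abs
      hE2E' (hT'pos z hz).le
    have h2 : E' - E2 = κ / 2 := by rw [hE2def, hκdef]; ring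
    rw [h2] at h
    have h3 := (hT'pos z hz).le
    exact m1_c h h3
  have hfac : ∀ z ∈ R, F.Facts c1 Cf z ∧ F.Facts1 c1 Cf z := fun z hz =>
    hfacts δx δo hδx.le (by linarith) hδo.le (by linarith) z hz.1
  have hSnn : ∀ z ∈ R, 0 ≤ F.S z.c (nR z) := fun z hz => (hfac z hz).1.S_nonneg
  have hg : ∀ z ∈ R, gen G (fun y => F.o2 (nR y)) z ≤
      2 * F.env E2 τ z + 2 * E2 * F.o2 (nR z) - 3 / 2 * F.S z.c (nR z) + C3 * tot z := fun z hz =>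
    hoff E2 hE2abs δx δo hδx.le (hδxo.trans ho3) hδo.le ho3 z hz.1
  -- drifts
  have hgU1 : ∀ z ∈ R, gen G U1 z ≤ 0 := by
    intro z hz
    obtain ⟨c, r, hmx⟩ := F.exists_mx E' τ hE'abs hτ hτ0 z
    have h := hA E' hE'abs K1 k6 δx δo hδx hδxo ho6 z hz.1 hz.2.1 c r hmx
    have h1 : 0 ≤ F.a 0 (nR z) * dsq z.c (nR z) c r / (4 * τ ^ 2 * F.env E' τ z ^ 2) := by
      have := (hapos z hz 0).le
      have := dsq_nonneg z.c (nR z) c r
      positivity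
    have h2 : F.E 0 - 2 * E' + C6 / K1 ≤ 0 := by
      have h3 : C6 / K1 ≤ 2 * κ := by
        rw [div_le_iff₀ hK1]
        rw [div_le_iff₀ (by positivity)] at kC6
        linarith
      have h4 : κ = E' - El := rfl
      linarith
    have h3 : 0 ≤ F.a 0 (nR z) / F.env E' τ z := div_nonneg (hapos z hz 0).le (hT'pos z hz).le
    have h4 := mul_le_mul_of_nonneg_right h2 h3
    linarith
  have hgY : ∀ z ∈ R, gen G Yf z ≤ -(F.S z.c (nR z) + tot z) / F.a l (nR z) ^ 2 := by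
    intro z hz
    obtain ⟨c, r, hmx⟩ := F.exists_mx E2 τ hE2abs hτ hτ0 z
    have h := hW E2 hE2abs 1 B zero_le_one hB.le δx δo hδx hδxo ho4 z hz.1 c r hmx _ (hg z hz)
    refine h.trans ?_
    apply div_le_div_of_nonneg_right _ (by positivity)
    apply m1_Y hBκ hE2κ (ho2 z hz) (hSnn z hz)
    · exact (mul_le_mul_of_nonneg_right kC (by linarith [htot z hz])).trans (hKt z hz)
    · exact hδoC
    · have := dsq_nonneg z.c (nR z) c r
      positivity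
  have hgxs : ∀ z ∈ R, gen G F.xs z ≤
      C5 * (((k + 1 : ℕ) : ℝ) ^ 2 * δx) * (F.S z.c (nR z) + tot z) / F.a l (nR z) ^ 2 := by
    intro z hz
    refine (hxs δx δo hδx hδxo ho5 z hz.1).trans ?_
    have h1 := F.xs_le δx δo hδx.le z hz.1
    apply div_le_div_of_nonneg_right _ (by positivity)
    apply mul_le_mul_of_nonneg_right
    · exact mul_le_mul_of_nonneg_left h1.2 hC5.le
    · linarith [hSnn z hz, htot z hz]
  have hgenH : ∀ z, gen G Hf z = K1 * Cf * gen G U1 z + A * gen G Yf z + 1 / δx * gen G F.xs z := by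
    intro z
    rw [hHf, gen_add (fun y => K1 * Cf * U1 y + A * (Yf y + 2 * B * δ1)) (fun y => 1 / δx * F.xs y),
      gen_add (fun y => K1 * Cf * U1 y) (fun y => A * (Yf y + 2 * B * δ1)),
      gen_smul, gen_smul A (fun y => Yf y + 2 * B * δ1), gen_smul,
      gen_add Yf (fun _ => 2 * B * δ1), gen_const]
    ring
  have hgH : ∀ z ∈ R, gen G Hf z ≤ 0 := by
    intro z hz
    rw [hgenH]
    have h1 := mul_le_mul_of_nonneg_left (hgU1 z hz) (by positivity : 0 ≤ K1 * Cf)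
    have h2 := mul_le_mul_of_nonneg_left (hgY z hz) hApos.le
    have h3 := mul_le_mul_of_nonneg_left (hgxs z hz) (by positivity : 0 ≤ 1 / δx)
    have h4 : 0 ≤ (F.S z.c (nR z) + tot z) / F.a l (nR z) ^ 2 := by
      apply div_nonneg _ (by positivity)
      linarith [hSnn z hz, htot z hz]
    have e1 : A * (-(F.S z.c (nR z) + tot z) / F.a l (nR z) ^ 2) =
        -(A * ((F.S z.c (nR z) + tot z) / F.a l (nR z) ^ 2)) := by ring
    have e2 : 1 / δx * (C5 * (((k + 1 : ℕ) : ℝ) ^ 2 * δx) * (F.S z.c (nR z) + tot z) / F.a l (nR z) ^ 2) =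
        C5 * ((k + 1 : ℕ) : ℝ) ^ 2 * ((F.S z.c (nR z) + tot z) / F.a l (nR z) ^ 2) := by
      field_simp
    rw [e1] at h2
    rw [e2] at h3
    have h5 := mul_le_mul_of_nonneg_right hA2 h4
    linarith
  -- lower bounds for `H`
  have hHlow : ∀ z : St V s, (∀ j, 0 < F.a j (nR z)) → 0 < F.env E' τ z → F.env E2 τ z ≤ 2 * δ1 * F.a l (nR z) ^ 2 →
      0 ≤ K1 * Cf * U1 z ∧ F.o2 (nR z) / F.a l (nR z) ^ 2 ≤ Yf z + 2 * B * δ1 ∧ 0 ≤ 1 / δx * F.xs z := by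
    intro z ha hT' hT
    refine ⟨?_, ?_, ?_⟩
    · have := ha 0
      have : 0 ≤ U1 z := div_nonneg this.le hT'.le
      positivity
    · have hal := ha l
      have h1 : F.env E2 τ z / F.a l (nR z) ^ 2 ≤ 2 * δ1 := by
        rw [div_le_iff₀ (by positivity)]
        exact hT
      have e : Yf z = F.o2 (nR z) / F.a l (nR z) ^ 2 - B * (F.env E2 τ z / F.a l (nR z) ^ 2) := by
        rw [hYf]
        ring
      rw [e]
      have h2 := mul_le_mul_of_nonneg_left h1 hB.le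
      linarith
    · have := F.xs_nonneg z ha
      positivity
  have hHnn : ∀ z : St V s, (∀ j, 0 < F.a j (nR z)) → 0 < F.env E' τ z → F.env E2 τ z ≤ 2 * δ1 * F.a l (nR z) ^ 2 →
      0 ≤ Hf z := by
    intro z ha hT' hT
    obtain ⟨h1, h2, h3⟩ := hHlow z ha hT' hT
    have h4 : 0 ≤ F.o2 (nR z) / F.a l (nR z) ^ 2 := div_nonneg (ho2nn z) (by positivity)
    have h5 : 0 ≤ A * (Yf z + 2 * B * δ1) := mul_nonneg hApos.le (h4.trans h2)
    show 0 ≤ (K1 * Cf * U1 z + A * (Yf z + 2 * B * δ1)) + 1 / δx * F.xs z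
    linarith
  -- the situation after a step
  have hafter : ∀ z ∈ R, ∀ w, 1 ≤ z.n w →
      F.Reg (2 * δx) (2 * δo) (step G z w) ∧ 0 < F.env E' τ (step G z w) ∧ 0 < F.env E2 τ (step G z w) ∧
      F.env E2 τ (step G z w) ≤ 2 * δ1 * F.a l (nR (step G z w)) ^ 2 := by
    intro z hz w hw
    obtain ⟨hreg, haa, -, -, -⟩ := hstep δx δo hδx hδxo ho10 z hz.1 w hw
    obtain ⟨p1, p2, -⟩ := hhalf E' hE'abs K1 k9 δx δo hδx hδxo ho9 z hz.1 hz.2.1 w hw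
    obtain ⟨q1, q2, -⟩ := hhalf E2 hE2abs K1 k9 δx δo hδx hδxo ho9 z hz.1 (hKt z hz) w hw
    refine ⟨hreg, by linarith, by linarith, ?_⟩
    exact m1_T hδ1 hδx hC10 hC11 hδo1 hδo ((hlarge δx δo hδx hδxo ho12 z hz.1).1 l) (haa l) hz.2.2
      (hz.1.2.2.2.2.1 l) (hestep E2 hE2abs δx δo hδx hδxo ho11 z hz.1 w hw) hδxC
  -- the exits
  have hexit : ∀ z ∈ R, ∀ w, 1 ≤ z.n w → step G z w ∉ R →
      (ε1 ≤ f (step G z w) ∧ -1 ≤ Hf (step G z w)) ∨ 1 ≤ Hf (step G z w) := by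
    intro z hz w hw hout
    obtain ⟨hreg, hT', hT, hTup⟩ := hafter z hz w hw
    set y := step G z w with hy
    have ha : ∀ j, 0 < F.a j (nR y) := hreg.2.2.1
    have hfy := (hfacts (2 * δx) (2 * δo) (by linarith) (by linarith) (by linarith) (by linarith) y hreg).2
    obtain ⟨h1, h2, h3⟩ := hHlow y ha hT' hTup
    have h4 : 0 ≤ F.o2 (nR y) / F.a l (nR y) ^ 2 := div_nonneg (ho2nn y) (by positivity)
    have h5 : A * (F.o2 (nR y) / F.a l (nR y) ^ 2) ≤ A * (Yf y + 2 * B * δ1) :=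
      mul_le_mul_of_nonneg_left h2 hApos.le
    have h6 : 0 ≤ A * (F.o2 (nR y) / F.a l (nR y) ^ 2) := mul_nonneg hApos.le h4
    have hHy : Hf y = (K1 * Cf * U1 y + A * (Yf y + 2 * B * δ1)) + 1 / δx * F.xs y := rfl
    by_cases hc1' : K1 * tot y ≤ F.env E' τ y
    swap
    · -- the envelope is small
      right
      have h7 : 1 ≤ K1 * Cf * U1 y := by
        show 1 ≤ K1 * Cf * (F.a 0 (nR y) / F.env E' τ y)
        rw [← mul_div_assoc, le_div_iff₀ hT', one_mul]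
        have := hfy.tot_le
        have h8 := mul_le_mul_of_nonneg_left this hK1.le
        rw [not_le] at hc1'
        linarith
      rw [hHy]
      linarith
    by_cases hc2 : F.Reg δx δo y
    · -- exit through the envelope
      left
      have h7 : ¬ F.env E2 τ y < δ1 * F.a l (nR y) ^ 2 := fun h => hout ⟨hc2, hc1', h⟩
      rw [not_lt] at h7
      refine ⟨hInv1 y (F.Reg_mono hδx.le hδo.le hδxI hδoI y hc2) (h7.trans (hmono2 y)), ?_⟩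
      have := hHnn y ha hT' hTup
      linarith
    · right
      -- one of the conditions of `Reg` fails
      by_cases hr : ∀ i j, i < j → F.a j (nR y) ≤ δx * F.a i (nR y)
      swap
      · push Not at hr
        obtain ⟨i, j, hij, hv⟩ := hr
        have h7 := F.xs_gt δx y ha i j hij hv
        have h8 : 1 ≤ 1 / δx * F.xs y := by
          rw [one_div, ← div_eq_inv_mul, le_div_iff₀ hδx, one_mul]
          exact h7.le
        rw [hHy]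
        linarith
      by_cases hr2 : ∀ j, F.o2 (nR y) ≤ δo ^ 2 * F.a j (nR y) ^ 2
      swap
      · push Not at hr2
        obtain ⟨j, hj⟩ := hr2
        have hlj := hfy.last_le j
        have hlpos : 0 < F.a l (nR y) := ha l
        have h7 : δo ^ 2 ≤ F.o2 (nR y) / F.a l (nR y) ^ 2 := by
          rw [le_div_iff₀ (by positivity)]
          have h8 : F.a l (nR y) ^ 2 ≤ F.a j (nR y) ^ 2 := pow_le_pow_left₀ hlpos.le hlj 2
          have h9 := mul_le_mul_of_nonneg_left h8 (by positivity : (0 : ℝ) ≤ δo ^ 2)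
          linarith
        have h8 := mul_le_mul_of_nonneg_left h7 hApos.le
        rw [hHy]
        linarith
      exfalso
      apply hc2
      refine ⟨hreg.1, hreg.2.1, ha, hr, hr2, fun j => ?_⟩
      have hlj := hfy.last_le j
      have hlpos : 0 < F.a l (nR y) := ha l
      have h7 : K1 * tot y ≤ 2 * δ1 * F.a l (nR y) ^ 2 := hc1'.trans ((hmono y).trans hTup)
      have h8 : F.a l (nR y) ^ 2 ≤ F.a j (nR y) ^ 2 := pow_le_pow_left₀ hlpos.le hlj 2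
      rw [div_le_iff₀ (by positivity)] at kδ
      have h9 : K1 * tot y ≤ K1 * (δx ^ 2 * F.a l (nR y) ^ 2) := by
        have h10 := mul_le_mul_of_nonneg_right kδ (by positivity : 0 ≤ F.a l (nR y) ^ 2)
        linarith
      have h11 : tot y ≤ δx ^ 2 * F.a l (nR y) ^ 2 := le_of_mul_le_mul_left h9 hK1
      exact h11.trans (mul_le_mul_of_nonneg_left h8 (by positivity))
  -- exit function
  have hUlow : ∀ z ∈ R, 1 / δ1 ≤ Uf z := by
    intro z hz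
    have hT := hTpos z hz
    have h1 : 1 / δ1 ≤ F.a l (nR z) ^ 2 / F.env E2 τ z := by
      rw [div_le_div_iff₀ hδ1 hT]
      have := hz.2.2
      linarith
    have h2 : 0 ≤ C7 * (F.o2 (nR z) / F.env E2 τ z) :=
      mul_nonneg hC7.le (div_nonneg (ho2nn z) hT.le)
    show 1 / δ1 ≤ F.a l (nR z) ^ 2 / F.env E2 τ z + C7 * (F.o2 (nR z) / F.env E2 τ z)
    linarith
  have hUe : ∀ z ∈ R, ∀ w, 1 ≤ z.n w → step G z w ∉ R → 0 ≤ Uf (step G z w) := by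
    intro z hz w hw _
    obtain ⟨-, -, hT, -⟩ := hafter z hz w hw
    have h1 := ho2nn (step G z w)
    show 0 ≤ F.a l (nR (step G z w)) ^ 2 / F.env E2 τ (step G z w) +
      C7 * (F.o2 (nR (step G z w)) / F.env E2 τ (step G z w))
    positivity
  have hgenU : ∀ z, gen G Uf z = gen G (fun y => F.a l (nR y) ^ 2 / F.env E2 τ y) z +
      C7 * gen G (fun y => F.o2 (nR y) / F.env E2 τ y) z := by
    intro z
    rw [hUf, gen_add (fun y => F.a l (nR y) ^ 2 / F.env E2 τ y)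
      (fun y => C7 * (F.o2 (nR y) / F.env E2 τ y)), gen_smul C7 (fun y => F.o2 (nR y) / F.env E2 τ y)]
  have hUg : ∀ z ∈ R, gen G Uf z ≤ -((3 * κ / 8) / (1 + 8 * C7 * δ1 / κ) * Uf z) := by
    intro z hz
    rw [hgenU]
    obtain ⟨c, r, hmx⟩ := F.exists_mx E2 τ hE2abs hτ hτ0 z
    have h1 := hL E2 hE2abs K1 k7 δx δo hδx hδxo ho7 z hz.1 (hKt z hz)
    have h2 := hV E2 hE2abs K1 k8 δx δo hδx hδxo ho8 z hz.1 (hKt z hz) c r hmx _ (hg z hz)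
    refine m1_U hκ (hTpos z hz) (by positivity) hE2κ hC7 (hSnn z hz) hδ1 hC3 hC8 hK1 h1 h2 ?_
      (ho2 z hz) (hKt z hz) kU1 kU2 hz.2.2 hδ1b
    have := dsq_nonneg z.c (nR z) c r
    have := ho2nn z
    positivity
  have hmain := min_principle f Hf Uf R ε1 (1 / δ1) ((3 * κ / 8) / (1 + 8 * C7 * δ1 / κ))
    hf.nonneg hf.harm hε1.le (by positivity) (by positivity) htot hgH
    (fun z hz => by
      have := hHnn z (hapos z hz) (hT'pos z hz) (by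
        have h1 := hz.2.2
        have h2 : 0 ≤ δ1 * F.a l (nR z) ^ 2 := by positivity
        linarith)
      linarith)
    hexit hUlow hUg hUe
  -- conclusion
  obtain ⟨δ, hδ, hδδx, hδT, hδA, hδk⟩ : ∃ δ : ℝ, 0 < δ ∧ δ ≤ δx ∧ 16 * (cV V + 1) * δ ^ 2 < δ1 ∧
      A * δ ^ 2 ≤ 1 / 8 ∧ ((k + 1 : ℕ) : ℝ) ^ 2 * δ ≤ 1 / 8 * δx := by
    have hkp : (0 : ℝ) < ((k + 1 : ℕ) : ℝ) := by positivity
    have hm : ∃ x : ℝ, 0 < x ∧ ∀ y ∈ ([δx, δ1 / (32 * (cV V + 1)), 1 / (8 * A),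
        δx / (8 * ((k + 1 : ℕ) : ℝ) ^ 2)] : List ℝ), x ≤ y := by
      have hall : ∀ y ∈ ([δx, δ1 / (32 * (cV V + 1)), 1 / (8 * A),
        δx / (8 * ((k + 1 : ℕ) : ℝ) ^ 2)] : List ℝ), 0 < y := by
        intro y hy
        simp only [List.mem_cons, List.not_mem_nil, or_false] at hy
        rcases hy with h | h | h | h <;> rw [h] <;> positivity
      exact m1_min _ hall
    obtain ⟨x, hx, hxy⟩ := hm
    simp only [List.mem_cons, List.not_mem_nil, or_false, forall_eq_or_imp, forall_eq] at hxy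
    obtain ⟨h1, h2, h3, h4⟩ := hxy
    have hx1 : x ≤ 1 := h1.trans hδx1
    have hxx : x ^ 2 ≤ x := m1_d hx hx1
    rw [le_div_iff₀ (by positivity)] at h2 h3 h4
    refine ⟨x, hx, h1, ?_, ?_, ?_⟩
    · have h5 := mul_le_mul_of_nonneg_left hxx (by positivity : 0 ≤ 16 * (cV V + 1))
      exact m1_e hδ1 h2 h5
    · have h5 := mul_le_mul_of_nonneg_left hxx hApos.le
      linarith
    · linarith
  refine ⟨δ, hδ, 8 * K1 * Cf + K1, by positivity, ε1 / 4, by positivity, fun z hreg hKz => ?_⟩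
  have htz : 1 ≤ tot z := hreg.1
  have ha : ∀ j, 0 < F.a j (nR z) := hreg.2.2.1
  have hal : 0 < F.a l (nR z) := ha l
  have hKz1 : K1 * tot z ≤ F.env E' τ z := by
    refine le_trans ?_ hKz
    apply mul_le_mul_of_nonneg_right _ (by linarith)
    have : 0 < K1 * Cf := by positivity
    linarith
  have hb := (hbounds δ δ hδ.le (by linarith) hδ.le (by linarith) z hreg).2.1 E2 hE2abs
  have ho2z : F.o2 (nR z) ≤ δ ^ 2 * F.a l (nR z) ^ 2 := hreg.2.2.2.2.1 l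
  have hzR : z ∈ R := by
    refine ⟨F.Reg_mono hδ.le hδ.le hδδx (hδδx.trans hδxo) z hreg, hKz1, ?_⟩
    refine lt_of_le_of_lt hb ?_
    calc 16 * (cV V + 1) * F.o2 (nR z) ≤ 16 * (cV V + 1) * (δ ^ 2 * F.a l (nR z) ^ 2) :=
          mul_le_mul_of_nonneg_left ho2z (by positivity)
      _ = 16 * (cV V + 1) * δ ^ 2 * F.a l (nR z) ^ 2 := by ring
      _ < δ1 * F.a l (nR z) ^ 2 := mul_lt_mul_of_pos_right hδT (by positivity)
  have hfin := hmain z hzR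
  have hT' := hT'pos z hzR
  have hT := hTpos z hzR
  -- `H z ≤ 1/2`
  have t1 : K1 * Cf * U1 z ≤ 1 / 8 := by
    show K1 * Cf * (F.a 0 (nR z) / F.env E' τ z) ≤ 1 / 8
    rw [← mul_div_assoc, div_le_iff₀ hT']
    have h1 := (hfac z hzR).2.zero_le_tot
    have h2 : K1 * Cf * F.a 0 (nR z) ≤ K1 * Cf * tot z :=
      mul_le_mul_of_nonneg_left h1 (by positivity)
    have h3 : 0 ≤ K1 * tot z := by positivity
    exact m1_f h2 hKz h3
  have t2 : A * (Yf z + 2 * B * δ1) ≤ 1 / 4 := by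
    have h1 : Yf z ≤ δ ^ 2 := by
      show (1 * F.o2 (nR z) - B * F.env E2 τ z) / F.a l (nR z) ^ 2 ≤ δ ^ 2
      rw [div_le_iff₀ (by positivity)]
      have := mul_pos hB hT
      linarith
    have h2 : A * (Yf z + 2 * B * δ1) ≤ A * (δ ^ 2 + 2 * B * δ1) :=
      mul_le_mul_of_nonneg_left (by linarith) hApos.le
    have h3 : A * (δ ^ 2 + 2 * B * δ1) = A * δ ^ 2 + 2 * A * B * δ1 := by ring
    linarith
  have t3 : 1 / δx * F.xs z ≤ 1 / 8 := by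
    have h1 := (F.xs_le δ δ hδ.le z hreg).2
    rw [one_div, ← div_eq_inv_mul, div_le_iff₀ hδx]
    linarith
  have hH : Hf z ≤ 1 / 2 := by
    show (K1 * Cf * U1 z + A * (Yf z + 2 * B * δ1)) + 1 / δx * F.xs z ≤ 1 / 2
    linarith
  exact m1_g hε1 hfin hH

end UC
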