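import Pool.Agent.helper25.UC.R1

/-!
# R5 : an abstract argument

`R` is a set of states, `Ψ` subharmonic on `R`, `≤ 1` on `R`, `≤ 0` at the exits;
`U ≥ 0` superharmonic on `R` (also `≥ 0` at the exits), with `gen U ≤ -c1` where `f < ε'`.
Then `Ψ < 1/2` on `R`.
Proof.  Suppose `Ψ z0 ≥ 1/2`.  `PR` is from K2 (`PR G R φ m z = E_z [φ(Z_m); Z_0,…,Z_m ∈ R]`).
(a) `Ψ z ≤ PR G R 1 m z` for `z ∈ R`: induction on `m`.  `m = 0`: `Ψ ≤ 1`.  Step:
  `PR 1 (m+1) z = ∑ n_w PR 1 m (z^w)/tot ≥ ∑ n_w Ψ(z^w)/tot = Ψ z + gen Ψ z/tot ≥ Ψ z` (for the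
  exits `PR = 0 ≥ Ψ`).
(b) `PR f m z0 ≤ PT (if TwoCol then f else 0) m z0 → 0` (`PR_le_PT`; states of `R` are `TwoCol`;
  `PR_mono`, using that only the values on `R` matter).  So for `m ≥ m1`:
  `PR (f/ε') m z0 ≤ 1/4`, and with `g = 1` if `f < ε'`, `0` otherwise, `1 ≤ g + f/ε'` pointwise:
  `PR g m z0 ≥ 1/2 - 1/4`.
(c) for `z ∈ R` and all `M`: `∑_{m<M} PR (c1 g/tot) m z ≤ U z`: induction on `M`:
  `∑_{m<M+1} PR(·) m z = c1 g z/tot z + ∑_w (n_w/tot) ∑_{m<M} PR(·) m (z^w) ≤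
  c1 g z/tot z + ∑_w (n_w/tot) U(z^w) = c1 g z/tot z + U z + gen U z/tot z ≤ U z`
  (for the exits `PR = 0 ≤ U`).
(d) `PR (g/tot) m z ≥ PR g m z/(tot z + n0 m)` for `z ∈ R` (`g ≥ 0`): induction on `m`, general form:
  if `tot z + n0 m ≤ N` then `PR g m z ≤ N PR (g/tot) m z` (`step_tot_le`).
So `∑_{m1 ≤ m < M} (c1/4)/(tot z0 + n0 m) ≤ U z0` for all `M`: contradiction with the divergence of
the harmonic series (e.g. `Real.not_summable_one_div_natCast`, or `n0 ≥ 1`, `tot z0 + n0 m ≤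
(tot z0 + n0)(m+1)` and `Real.tendsto_sum_range_one_div_nat_succ_atTop`).
-/

namespace UC
open Finset Filter
variable {V : Type} [Fintype V] [DecidableEq V] {s : ℕ}
variable {G : SimpleGraph V} [DecidableRel G.Adj]

theorem R5_a (Ψ : St V s → ℝ) (R : Set (St V s)) (hR : ∀ z ∈ R, 1 ≤ tot z)
    (hΨ1 : ∀ z ∈ R, Ψ z ≤ 1) (hΨg : ∀ z ∈ R, 0 ≤ gen G Ψ z)
    (hΨe : ∀ z ∈ R, ∀ w, 1 ≤ z.n w → step G z w ∉ R → Ψ (step G z w) ≤ 0) (m : ℕ) :
    ∀ z ∈ R, Ψ z ≤ PR G R (fun _ => 1) m z := by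
  induction m with
  | zero =>
    intro z hz
    rw [PR_zero_in hz]
    exact hΨ1 z hz
  | succ m ih =>
    intro z hz
    have hN : 0 < tot z := lt_of_lt_of_le one_pos (hR z hz)
    rw [PR_succ_in hz, le_div_iff₀ hN]
    have h1 : ∑ w, (z.n w : ℝ) * Ψ (step G z w) ≤
        ∑ w, (z.n w : ℝ) * PR G R (fun _ => 1) m (step G z w) := by
      apply Finset.sum_le_sum
      intro w _
      by_cases hw0 : z.n w = 0
      · simp [hw0]
      · have hw1 : 1 ≤ z.n w := Nat.one_le_iff_ne_zero.2 hw0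
        apply mul_le_mul_of_nonneg_left _ (Nat.cast_nonneg _)
        by_cases hzw : step G z w ∈ R
        · exact ih _ hzw
        · rw [PR_out hzw]
          exact hΨe z hz w hw1 hzw
    rw [K2_gen_sum] at h1
    have := hΨg z hz
    linarith

theorem R5_c (φ U : St V s → ℝ) (R : Set (St V s)) (hR : ∀ z ∈ R, 1 ≤ tot z)
    (hU0 : ∀ z ∈ R, 0 ≤ U z)
    (hUe : ∀ z ∈ R, ∀ w, 1 ≤ z.n w → step G z w ∉ R → 0 ≤ U (step G z w))
    (hUg : ∀ z ∈ R, gen G U z ≤ - (φ z * tot z)) (M : ℕ) :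
    ∀ z ∈ R, ∑ m ∈ Finset.range M, PR G R φ m z ≤ U z := by
  induction M with
  | zero =>
    intro z hz
    simpa using hU0 z hz
  | succ M ih =>
    intro z hz
    have hN : 0 < tot z := lt_of_lt_of_le one_pos (hR z hz)
    rw [Finset.sum_range_succ', PR_zero_in hz]
    have h0 : ∑ m ∈ Finset.range M, PR G R φ (m + 1) z =
        (∑ w, (z.n w : ℝ) * ∑ m ∈ Finset.range M, PR G R φ m (step G z w)) / tot z := by
      have h1 : ∀ m ∈ Finset.range M, PR G R φ (m + 1) z =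
          (∑ w, (z.n w : ℝ) * PR G R φ m (step G z w)) / tot z := fun m _ => PR_succ_in hz m
      rw [Finset.sum_congr rfl h1, ← Finset.sum_div, Finset.sum_comm]
      congr 1
      apply Finset.sum_congr rfl
      intro w _
      rw [Finset.mul_sum]
    rw [h0]
    have h1 : ∑ w, (z.n w : ℝ) * ∑ m ∈ Finset.range M, PR G R φ m (step G z w) ≤
        ∑ w, (z.n w : ℝ) * U (step G z w) := by
      apply Finset.sum_le_sum
      intro w _
      by_cases hw0 : z.n w = 0
      · simp [hw0]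
      · have hw1 : 1 ≤ z.n w := Nat.one_le_iff_ne_zero.2 hw0
        apply mul_le_mul_of_nonneg_left _ (Nat.cast_nonneg _)
        by_cases hzw : step G z w ∈ R
        · exact ih _ hzw
        · have h2 : ∑ m ∈ Finset.range M, PR G R φ m (step G z w) = 0 :=
            Finset.sum_eq_zero fun m _ => PR_out hzw m
          rw [h2]
          exact hUe z hz w hw1 hzw
    rw [K2_gen_sum] at h1
    have h2 := hUg z hz
    have h3 : (∑ w, (z.n w : ℝ) * ∑ m ∈ Finset.range M, PR G R φ m (step G z w)) / tot z ≤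
        U z - φ z := by
      rw [div_le_iff₀ hN]
      nlinarith
    linarith

theorem R5_d (g : St V s → ℝ) (R : Set (St V s)) (hR : ∀ z ∈ R, 1 ≤ tot z)
    (hg : ∀ z, 0 ≤ g z) (N : ℝ) (m : ℕ) :
    ∀ z ∈ R, tot z + cV V * m ≤ N → PR G R g m z ≤ N * PR G R (fun y => g y / tot y) m z := by
  have hcV : 0 ≤ cV V := Nat.cast_nonneg _
  induction m with
  | zero =>
    intro z hz hN
    have hN0 : 0 < tot z := lt_of_lt_of_le one_pos (hR z hz)
    rw [PR_zero_in hz, PR_zero_in hz]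
    have h1 : tot z ≤ N := by simpa using hN
    have h2 : N * (g z / tot z) = g z * (N / tot z) := by ring
    rw [h2]
    have h3 : 1 ≤ N / tot z := by
      rw [le_div_iff₀ hN0]; linarith
    exact le_mul_of_one_le_right (hg z) h3
  | succ m ih =>
    intro z hz hN
    push_cast at hN
    have hN0 : 0 < tot z := lt_of_lt_of_le one_pos (hR z hz)
    rw [PR_succ_in hz, PR_succ_in hz, ← mul_div_assoc]
    apply div_le_div_of_nonneg_right _ hN0.le
    rw [Finset.mul_sum]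
    apply Finset.sum_le_sum
    intro w _
    have h1 : N * ((z.n w : ℝ) * PR G R (fun y => g y / tot y) m (step G z w)) =
        (z.n w : ℝ) * (N * PR G R (fun y => g y / tot y) m (step G z w)) := by ring
    rw [h1]
    apply mul_le_mul_of_nonneg_left _ (Nat.cast_nonneg _)
    by_cases hzw : step G z w ∈ R
    · apply ih _ hzw
      have := K2_step_tot_le (G := G) z w
      linarith
    · rw [PR_out hzw, PR_out hzw, mul_zero]

theorem abs_main (f Ψ U : St V s → ℝ) (R : Set (St V s)) (ε' c1 : ℝ) (hε : 0 < ε') (hc : 0 < c1)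
    (hR : ∀ z ∈ R, 1 ≤ tot z ∧ TwoCol z) (hf : ∀ z, 0 ≤ f z) (hL : Levy G f)
    (hΨ1 : ∀ z ∈ R, Ψ z ≤ 1) (hΨg : ∀ z ∈ R, 0 ≤ gen G Ψ z)
    (hΨe : ∀ z ∈ R, ∀ w, 1 ≤ z.n w → step G z w ∉ R → Ψ (step G z w) ≤ 0)
    (hU0 : ∀ z ∈ R, 0 ≤ U z)
    (hUe : ∀ z ∈ R, ∀ w, 1 ≤ z.n w → step G z w ∉ R → 0 ≤ U (step G z w))
    (hUg : ∀ z ∈ R, gen G U z ≤ 0)
    (hUg' : ∀ z ∈ R, f z < ε' → gen G U z ≤ -c1)
    (z0 : St V s) (hz0 : z0 ∈ R) (hΨ0 : 1 / 2 ≤ Ψ z0) : False := by
  classical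
  have hRt : ∀ z ∈ R, 1 ≤ tot z := fun z hz => (hR z hz).1
  have hcV : 0 ≤ cV V := Nat.cast_nonneg _
  set g : St V s → ℝ := fun y => if f y < ε' then 1 else 0 with hg
  have hg0 : ∀ y, 0 ≤ g y := by
    intro y
    simp only [hg]
    split_ifs <;> norm_num
  -- (b)
  have hev := (hL z0 (hRt z0 hz0)).eventually (gt_mem_nhds (show (0:ℝ) < ε' / 4 by positivity))
  rw [Filter.eventually_atTop] at hev
  obtain ⟨m1, hm1⟩ := hev
  have hPRf : ∀ m, m1 ≤ m → PR G R f m z0 ≤ ε' / 4 := by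
    intro m hm
    have h1 : PR G R f m z0 ≤ PR G R (fun y => if TwoCol y then f y else 0) m z0 := by
      apply PR_mono
      intro z hz
      rw [if_pos (hR z hz).2]
    have h2 : PR G R (fun y => if TwoCol y then f y else 0) m z0 ≤
        PT G (fun y => if TwoCol y then f y else 0) m z0 := by
      apply PR_le_PT R hRt
      intro z
      split_ifs
      · exact hf z
      · exact le_refl _
    exact (h1.trans h2).trans (hm1 m hm).le
  have hPRg : ∀ m, m1 ≤ m → 1 / 4 ≤ PR G R g m z0 := by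
    intro m hm
    have h1 := R5_a Ψ R hRt hΨ1 hΨg hΨe m z0 hz0
    have h2 : PR G R (fun _ => 1) m z0 ≤ PR G R (fun y => 1 * g y + (1 / ε') * f y) m z0 := by
      apply PR_mono
      intro z _
      simp only [hg]
      have h3 : 0 ≤ (1 / ε') * f z := mul_nonneg (by positivity) (hf z)
      split_ifs with h4
      · linarith
      · rw [not_lt] at h4
        have h5 : 1 ≤ (1 / ε') * f z := by
          rw [one_div_mul_eq_div, le_div_iff₀ hε]
          linarith
        linarith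
    rw [PR_linear] at h2
    have h3 : (1 / ε') * PR G R f m z0 ≤ 1 / 4 := by
      have h4 := mul_le_mul_of_nonneg_left (hPRf m hm) (show (0:ℝ) ≤ 1 / ε' by positivity)
      have h5 : 1 / ε' * (ε' / 4) = 1 / 4 := by field_simp
      linarith
    linarith
  -- (c)
  have hsum := R5_c (G := G) (fun y => c1 * (g y / tot y)) U R hRt hU0 hUe (by
    intro z hz
    have hN : 0 < tot z := lt_of_lt_of_le one_pos (hRt z hz)
    have h1 : c1 * (g z / tot z) * tot z = c1 * g z := by field_simp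
    rw [h1]
    by_cases h2 : f z < ε'
    · have h3 : g z = 1 := by simp only [hg, if_pos h2]
      rw [h3, mul_one]
      exact hUg' z hz h2
    · have h3 : g z = 0 := by simp only [hg, if_neg h2]
      rw [h3, mul_zero, neg_zero]
      exact hUg z hz)
  have hlin : ∀ m, PR G R (fun y => c1 * (g y / tot y)) m z0 =
      c1 * PR G R (fun y => g y / tot y) m z0 := by
    intro m
    have h1 := PR_linear (G := G) R (fun y => g y / tot y) (fun _ => 0) c1 0 m z0
    simpa using h1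
  set T : ℝ := tot z0 + cV V * (m1 + 1) with hT
  have hT0 : 0 < T := by
    have := hRt z0 hz0
    positivity
  have hterm : ∀ m : ℕ, c1 / (4 * T) * (1 / ((m : ℝ) + 1)) ≤
      PR G R (fun y => c1 * (g y / tot y)) (m1 + m) z0 := by
    intro m
    rw [hlin]
    have hm0 : (0:ℝ) ≤ m := Nat.cast_nonneg m
    have h1 := R5_d (G := G) g R hRt hg0 (T * (m + 1)) (m1 + m) z0 hz0 (by
      have h2 : 0 ≤ tot z0 := by linarith [hRt z0 hz0]
      have h3 : (0:ℝ) ≤ m1 := Nat.cast_nonneg m1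
      rw [hT]
      push_cast
      have h4 : 0 ≤ tot z0 * m := mul_nonneg h2 hm0
      have h5 : 0 ≤ cV V * m1 * m := mul_nonneg (mul_nonneg hcV h3) hm0
      nlinarith)
    have h2 := hPRg (m1 + m) (Nat.le_add_right _ _)
    have h3 : (1:ℝ) / 4 ≤ T * (m + 1) * PR G R (fun y => g y / tot y) (m1 + m) z0 := h2.trans h1
    have hTm : 0 < T * ((m : ℝ) + 1) := by positivity
    have h4 : 1 / (4 * (T * ((m : ℝ) + 1))) ≤ PR G R (fun y => g y / tot y) (m1 + m) z0 := by
      rw [div_le_iff₀ (by positivity)]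
      linarith
    calc c1 / (4 * T) * (1 / ((m : ℝ) + 1)) = c1 * (1 / (4 * (T * ((m : ℝ) + 1)))) := by
          field_simp
      _ ≤ _ := mul_le_mul_of_nonneg_left h4 hc.le
  have hK : 0 < c1 / (4 * T) := by positivity
  have hbound : ∀ M : ℕ, ∑ m ∈ Finset.range M, (1 / ((m : ℝ) + 1)) ≤ U z0 / (c1 / (4 * T)) := by
    intro M
    rw [le_div_iff₀ hK]
    have h1 := hsum (m1 + M) z0 hz0
    rw [Finset.sum_range_add] at h1
    have h2 : 0 ≤ ∑ m ∈ Finset.range m1, PR G R (fun y => c1 * (g y / tot y)) m z0 := by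
      apply Finset.sum_nonneg
      intro m _
      apply K2_PR_nonneg
      intro z hz
      have := hRt z hz
      have := hg0 z
      positivity
    have h3 : ∑ m ∈ Finset.range M, c1 / (4 * T) * (1 / ((m : ℝ) + 1)) ≤
        ∑ m ∈ Finset.range M, PR G R (fun y => c1 * (g y / tot y)) (m1 + m) z0 :=
      Finset.sum_le_sum fun m _ => hterm m
    rw [← Finset.mul_sum] at h3
    linarith
  have hdiv := Real.tendsto_sum_range_one_div_nat_succ_atTop
  obtain ⟨M, hM⟩ := (hdiv.eventually (Filter.eventually_gt_atTop (U z0 / (c1 / (4 * T))))).exists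
  exact absurd (hbound M) (not_le.2 hM)

end UC
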